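import Pool.Agent.H217.CF.Spec

/-!
# Project CF (helper217), LOCAL: local `q`-colourability (helper233)
-/

set_option autoImplicit false

namespace Pool.Agent.H233.CF

open Finset
open Pool.Agent.H217.CF (S_local)

section

variable {J V X : Type} [Fintype J] [DecidableEq J] [Fintype V] [DecidableEq V] [Fintype X]
  [DecidableEq X]

/-- the number of hits -/
def m (e : J → X → V) (j : J) (U : Finset V) : ℕ := (univ.filter (fun x => e j x ∈ U)).card

omit [Fintype J] [DecidableEq J] [Fintype V] in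
theorem two_le {e : J → X → V} {j : J} {U : Finset V} {x x' : X} (h : e j x ∈ U)
    (h' : e j x' ∈ U) (hne : x ≠ x') : 2 ≤ m e j U := by
  have h1 : ({x, x'} : Finset X) ⊆ univ.filter (fun x => e j x ∈ U) := by
    intro y hy
    rw [mem_insert, mem_singleton] at hy
    rw [mem_filter]
    rcases hy with rfl | rfl
    · exact ⟨mem_univ _, h⟩
    · exact ⟨mem_univ _, h'⟩
  have h2 := card_le_card h1
  rwa [card_pair hne] at h2

omit [Fintype J] [DecidableEq J] [Fintype V] in
/-- double counting -/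
theorem double_count (e : J → X → V) (A : Finset J) (U' : Finset V)
    (h : ∀ v ∈ U', 2 ≤ (A.filter (fun j => ∃ x, e j x = v)).card) :
    2 * U'.card ≤ ∑ j ∈ A, m e j U' := by
  have h1 : ∀ j ∈ A, m e j U' = ∑ v ∈ U', (univ.filter (fun x => e j x = v)).card := by
    intro j _
    unfold m
    have h2 : (univ.filter (fun x => e j x ∈ U')) =
        U'.biUnion (fun v => univ.filter (fun x => e j x = v)) := by
      ext x
      simp only [mem_filter, mem_univ, true_and, mem_biUnion]
      constructor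
      · intro hx
        exact ⟨e j x, hx, rfl⟩
      · rintro ⟨v, hv, hx⟩
        rw [hx]; exact hv
    rw [h2, card_biUnion]
    intro v _ v' _ hne
    rw [Function.onFun, disjoint_left]
    intro x hx hx'
    rw [mem_filter] at hx hx'
    exact hne (hx.2.symm.trans hx'.2)
  rw [sum_congr rfl h1, sum_comm]
  calc 2 * U'.card = ∑ _v ∈ U', 2 := by rw [sum_const, smul_eq_mul, mul_comm]
    _ ≤ ∑ v ∈ U', ∑ j ∈ A, (univ.filter (fun x => e j x = v)).card := by
        apply sum_le_sum
        intro v hv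
        refine (h v hv).trans ?_
        rw [card_filter]
        apply sum_le_sum
        intro j _
        split_ifs with hx
        · obtain ⟨x, hx⟩ := hx
          exact card_pos.2 ⟨x, mem_filter.2 ⟨mem_univ _, hx⟩⟩
        · exact Nat.zero_le _

omit [Fintype J] [DecidableEq J] [Fintype V] in
theorem local_aux (q : ℕ) (hq : 0 < q) (part : X → Fin q) (Js : Finset J) (e : J → X → V) (f : ℕ)
    (H : ∀ U : Finset V, U.Nonempty → U.card ≤ f → ∑ j ∈ Js, (m e j U - 1) < U.card) :
    ∀ (n : ℕ) (U : Finset V), U.card = n → U.card ≤ f →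
      ∃ col : V → Fin q, ∀ j ∈ Js, ∀ x x' : X, e j x ∈ U → e j x' ∈ U →
        part x ≠ part x' → col (e j x) ≠ col (e j x') := by
  intro n
  induction n using Nat.strong_induction_on with
  | _ n ih =>
  intro U hUn hUf
  by_cases hA : (Js.filter (fun j => 2 ≤ m e j U)).Nonempty
  swap
  · refine ⟨fun _ => ⟨0, hq⟩, ?_⟩
    intro j hj x x' hx hx' hp
    exfalso
    apply hA
    refine ⟨j, mem_filter.2 ⟨hj, two_le hx hx' ?_⟩⟩
    rintro rfl
    exact hp rfl
  obtain ⟨A, hAdef⟩ : ∃ A, A = Js.filter (fun j => 2 ≤ m e j U) := ⟨_, rfl⟩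
  rw [← hAdef] at hA
  have hAmem : ∀ j, j ∈ A ↔ j ∈ Js ∧ 2 ≤ m e j U := by
    intro j; rw [hAdef, mem_filter]
  obtain ⟨U', hU'def⟩ : ∃ U', U' = U.filter
    (fun v => 2 ≤ (A.filter (fun j => ∃ x, e j x = v)).card) := ⟨_, rfl⟩
  have hU'mem : ∀ v, v ∈ U' ↔ v ∈ U ∧ 2 ≤ (A.filter (fun j => ∃ x, e j x = v)).card := by
    intro v; rw [hU'def, mem_filter]
  have hU'U : U' ⊆ U := fun v hv => ((hU'mem v).1 hv).1
  -- some active block has at most one shared vertex
  have claim : ∃ j ∈ A, m e j U' ≤ 1 := by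
    by_contra hcon
    push Not at hcon
    obtain ⟨j₀, hj₀⟩ := hA
    have h1 := hcon j₀ hj₀
    have hne : U'.Nonempty := by
      by_contra h0
      rw [not_nonempty_iff_eq_empty] at h0
      rw [h0] at h1
      simp [m] at h1
    have h2 := H U' hne ((card_le_card hU'U).trans hUf)
    have h3 := double_count e A U' (fun v hv => ((hU'mem v).1 hv).2)
    have h4 : ∑ j ∈ A, m e j U' ≤ 2 * ∑ j ∈ A, (m e j U' - 1) := by
      rw [mul_sum]
      apply sum_le_sum
      intro j hj
      have := hcon j hj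
      omega
    have h5 : ∑ j ∈ A, (m e j U' - 1) ≤ ∑ j ∈ Js, (m e j U' - 1) := by
      apply sum_le_sum_of_subset
      intro j hj
      exact ((hAmem j).1 hj).1
    omega
  obtain ⟨j, hjA, hj1⟩ := claim
  obtain ⟨hjJs, hj2⟩ := (hAmem j).1 hjA
  -- injectivity
  have hf1 : 1 ≤ f := by
    have h1 : 0 < U.card := by
      rw [card_pos]
      by_contra h0
      rw [not_nonempty_iff_eq_empty] at h0
      rw [h0] at hj2
      simp [m] at hj2
    omega
  have hinj : ∀ j' ∈ Js, ∀ x x', e j' x = e j' x' → x = x' := by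
    intro j' hj' x x' hxx
    by_contra hne
    have h1 := H {e j' x} (singleton_nonempty _) (by rw [card_singleton]; exact hf1)
    rw [card_singleton] at h1
    have h2 : 2 ≤ m e j' {e j' x} := two_le (mem_singleton_self _)
      (by rw [mem_singleton]; exact hxx.symm) hne
    have h3 : m e j' {e j' x} - 1 ≤ ∑ j ∈ Js, (m e j {e j' x} - 1) :=
      single_le_sum (f := fun j => m e j {e j' x} - 1) (fun _ _ => Nat.zero_le _) hj'
    omega
  obtain ⟨P, hPdef⟩ : ∃ P, P = U.filter (fun v => (∃ x, e j x = v) ∧ v ∉ U') := ⟨_, rfl⟩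
  have hPmem : ∀ v, v ∈ P ↔ v ∈ U ∧ (∃ x, e j x = v) ∧ v ∉ U' := by
    intro v; rw [hPdef, mem_filter]
  have hPU : P ⊆ U := fun v hv => ((hPmem v).1 hv).1
  have hPne : P.Nonempty := by
    by_contra h0
    rw [not_nonempty_iff_eq_empty] at h0
    have h1 : univ.filter (fun x => e j x ∈ U) ⊆ univ.filter (fun x => e j x ∈ U') := by
      intro x hx
      rw [mem_filter] at hx ⊢
      refine ⟨hx.1, ?_⟩
      by_contra h2
      have h3 : e j x ∈ P := (hPmem _).2 ⟨hx.2, ⟨x, rfl⟩, h2⟩
      rw [h0] at h3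
      simp at h3
    have h2 := card_le_card h1
    unfold m at hj1 hj2
    omega
  have hlt : (U \ P).card < n := by
    rw [← hUn]
    apply card_lt_card
    refine ⟨sdiff_subset, fun h => ?_⟩
    obtain ⟨v, hv⟩ := hPne
    have h1 := h (hPU hv)
    rw [mem_sdiff] at h1
    exact h1.2 hv
  obtain ⟨col₁, hcol₁⟩ := ih (U \ P).card hlt (U \ P) rfl ((card_le_card sdiff_subset).trans hUf)
  -- the permutation
  obtain ⟨σ, hσ⟩ : ∃ σ : Equiv.Perm (Fin q), ∀ x, e j x ∈ U' → σ (part x) = col₁ (e j x) := by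
    by_cases h0 : ∃ x₀, e j x₀ ∈ U'
    · obtain ⟨x₀, hx₀⟩ := h0
      refine ⟨Equiv.swap (part x₀) (col₁ (e j x₀)), fun x hx => ?_⟩
      have h1 : x = x₀ := by
        by_contra hne
        have := two_le hx hx₀ hne
        omega
      rw [h1, Equiv.swap_apply_left]
    · exact ⟨1, fun x hx => absurd ⟨x, hx⟩ h0⟩
  classical
  obtain ⟨col, hcP, hcN⟩ : ∃ col : V → Fin q, (∀ x, e j x ∈ P → col (e j x) = σ (part x)) ∧
      ∀ v, v ∉ P → col v = col₁ v := by
    refine ⟨fun v => if h : ∃ x, e j x = v ∧ v ∈ P then σ (part h.choose) else col₁ v, ?_, ?_⟩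
    · intro x hx
      have h : ∃ y, e j y = e j x ∧ e j x ∈ P := ⟨x, rfl, hx⟩
      simp only
      rw [dif_pos h]
      have h1 := h.choose_spec.1
      rw [hinj j hjJs _ _ h1]
    · intro v hv
      simp only
      rw [dif_neg]
      rintro ⟨x, -, h2⟩
      exact hv h2
  refine ⟨col, ?_⟩
  intro j' hj' x x' hx hx' hp
  have hne : x ≠ x' := by
    rintro rfl
    exact hp rfl
  have hj'A : j' ∈ A := (hAmem j').2 ⟨hj', two_le hx hx' hne⟩
  by_cases hjj : j' = j
  · rw [hjj] at hx hx' ⊢
    have hval : ∀ y, e j y ∈ U → col (e j y) = σ (part y) := by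
      intro y hy
      by_cases hyP : e j y ∈ P
      · exact hcP y hyP
      · rw [hcN _ hyP]
        have h1 : e j y ∈ U' := by
          by_contra h2
          exact hyP ((hPmem _).2 ⟨hy, ⟨y, rfl⟩, h2⟩)
        exact (hσ y h1).symm
    rw [hval x hx, hval x' hx']
    exact fun h => hp (σ.injective h)
  · have hnP : ∀ y, e j' y ∈ U → e j' y ∉ P := by
      intro y hy hyP
      obtain ⟨-, ⟨z, hz⟩, h2⟩ := (hPmem _).1 hyP
      apply h2
      rw [hU'mem]
      refine ⟨hy, ?_⟩
      have h3 : ({j', j} : Finset J) ⊆ A.filter (fun i => ∃ x, e i x = e j' y) := by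
        intro i hi
        rw [mem_insert, mem_singleton] at hi
        rw [mem_filter]
        rcases hi with rfl | rfl
        · exact ⟨hj'A, y, rfl⟩
        · exact ⟨hjA, z, hz⟩
      have h4 := card_le_card h3
      rwa [card_pair hjj] at h4
    rw [hcN _ (hnP x hx), hcN _ (hnP x' hx')]
    exact hcol₁ j' hj' x x' (mem_sdiff.2 ⟨hx, hnP x hx⟩) (mem_sdiff.2 ⟨hx', hnP x' hx'⟩) hp

end

theorem s_local : S_local := by
  intro J V X _ _ _ _ _ _ q hq part Js e f H U hU
  exact local_aux q hq part Js e f H U.card U rfl hU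

end Pool.Agent.H233.CF
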